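import Pool.Agent.Y392.PK.Sub

/-! Odd multiples of the Petersen weight on a subdivision have no faithful circuit cover. -/

set_option autoImplicit false

namespace Pool.Agent.Y392.PK

open Finset
open Pool.Agent.H126R2.CDC (MGraph)

variable {V E : Type} [Fintype V] [DecidableEq V] [Fintype E] [DecidableEq E] {G : MGraph V E}

/-- faithful circuit cover: circuits such that every edge `e` lies in exactly `w e` of them -/
def HasCover (G : MGraph V E) (w : E → ℕ) : Prop :=
  ∃ F : Multiset (Finset E), (∀ C ∈ F, G.IsCircuit C) ∧ ∀ e, F.countP (fun C => e ∈ C) = w e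

open Pool.Agent.Y825.GC in
lemma star_a : ∀ k : Fin 15, k = q1 (pa k) ∨ k = q2 (pa k) ∨ k = q3 (pa k) := by decide +kernel

open Pool.Agent.Y825.GC in
lemma star_b : ∀ k : Fin 15, k = q1 (pb k) ∨ k = q2 (pb k) ∨ k = q3 (pb k) := by decide +kernel

open Pool.Agent.Y825.GC in
lemma star_inc : ∀ v : Fin 10, (pa (q1 v) = v ∨ pb (q1 v) = v) ∧ (pa (q2 v) = v ∨ pb (q2 v) = v) ∧
    (pa (q3 v) = v ∨ pb (q3 v) = v) := by decide +kernel

open Pool.Agent.Y825.GC in
lemma star_ne : ∀ v : Fin 10, q1 v ≠ q2 v ∧ q1 v ≠ q3 v ∧ q2 v ≠ q3 v := by decide +kernel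

namespace Subdiv

/-- the union of the paths -/
def U (S : Subdiv G) : Finset E := univ.filter (fun e => ∃ k, e ∈ S.P k)

lemma no_loop (S : Subdiv G) {e : E} (he : ∃ k, e ∈ S.P k) (v : V) : G.ends e ≠ s(v, v) := by
  obtain ⟨k, hk⟩ := he
  rw [S.mem_P] at hk
  obtain ⟨i, hi, rfl⟩ := hk
  rw [S.ends k i hi, ne_eq, Sym2.eq_iff]
  intro h
  apply S.p_succ_ne k i hi
  rcases h with ⟨h1, h2⟩ | ⟨h1, h2⟩ <;> rw [h1, h2]

lemma deg_eq (S : Subdiv G) {C : Finset E} (hC : ∀ e ∈ C, ∃ k, e ∈ S.P k) (v : V) :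
    G.deg C v = (C.filter (fun e => v ∈ G.ends e)).card := by
  unfold MGraph.deg
  have : C.filter (fun e => G.ends e = s(v, v)) = ∅ := by
    apply Finset.filter_eq_empty_iff.2
    intro e he
    exact S.no_loop (hC e he) v
  rw [this, card_empty, add_zero]

/-- consecutive edges of a path are both in an even set or both outside -/
lemma step (S : Subdiv G) {C : Finset E} (hC : ∀ e ∈ C, ∃ k, e ∈ S.P k) (hev : G.IsEven C)
    (k : Fin 15) (i : ℕ) (hi : i + 1 < S.n k) : S.q k i ∈ C ↔ S.q k (i + 1) ∈ C := by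
  have h1 := hev (S.p k (i + 1))
  rw [S.deg_eq hC] at h1
  have hne : S.q k i ≠ S.q k (i + 1) := by
    intro h
    have := (S.q_inj k k i (i + 1) (by omega) hi h).2
    omega
  have hset : C.filter (fun e => S.p k (i + 1) ∈ G.ends e) =
      ({S.q k i, S.q k (i + 1)} : Finset E).filter (fun e => e ∈ C) := by
    ext e
    rw [mem_filter, mem_filter, mem_insert, mem_singleton]
    constructor
    · rintro ⟨he, hv⟩
      refine ⟨?_, he⟩
      obtain ⟨k', hk'⟩ := hC e he
      rw [S.mem_P] at hk'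
      obtain ⟨j, hj, rfl⟩ := hk'
      rw [S.ends k' j hj, Sym2.mem_iff] at hv
      rcases hv with hv | hv
      · rcases S.inj k (i + 1) k' j (by omega) hj.le hv with ⟨h3, h4⟩ | ⟨h3, h4⟩
        · subst h3
          right; rw [h4]
        · omega
      · rcases S.inj k (i + 1) k' (j + 1) (by omega) hj hv with ⟨h3, h4⟩ | ⟨h3, h4⟩
        · subst h3
          left
          have : j = i := by omega
          rw [this]
        · omega
    · rintro ⟨h3, h4⟩
      refine ⟨h4, ?_⟩
      rcases h3 with rfl | rfl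
      · rw [S.ends k i (by omega)]; exact Sym2.mem_mk_right _ _
      · rw [S.ends k (i + 1) hi]; exact Sym2.mem_mk_left _ _
  rw [hset, filter_insert, filter_singleton] at h1
  by_cases a : S.q k i ∈ C <;> by_cases b : S.q k (i + 1) ∈ C
  · simp [a, b]
  · rw [if_pos a, if_neg b] at h1
    simp at h1
  · rw [if_neg a, if_pos b] at h1
    simp at h1
  · simp [a, b]

lemma all (S : Subdiv G) {C : Finset E} (hC : ∀ e ∈ C, ∃ k, e ∈ S.P k) (hev : G.IsEven C)
    (k : Fin 15) (i : ℕ) (hi : i < S.n k) : S.q k i ∈ C ↔ S.q k 0 ∈ C := by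
  induction i with
  | zero => exact Iff.rfl
  | succ i ih => rw [← S.step hC hev k i hi]; exact ih (by omega)

/-- the edge of the path `k` at its end `v` -/
def t (S : Subdiv G) (k : Fin 15) (v : Fin 10) : E :=
  if pa k = v then S.q k 0 else S.q k (S.n k - 1)

lemma t_idx (S : Subdiv G) (k : Fin 15) (v : Fin 10) : ∃ i < S.n k, S.t k v = S.q k i := by
  unfold t
  split_ifs
  · exact ⟨0, S.pos k, rfl⟩
  · exact ⟨S.n k - 1, by have := S.pos k; omega, rfl⟩

lemma t_mem_ends (S : Subdiv G) (k : Fin 15) (v : Fin 10) (h : pa k = v ∨ pb k = v) :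
    S.b v ∈ G.ends (S.t k v) := by
  unfold t
  split_ifs with h1
  · rw [S.ends k 0 (S.pos k), S.start, h1]; exact Sym2.mem_mk_left _ _
  · have h2 := h.resolve_left h1
    have h3 := S.pos k
    rw [S.ends k (S.n k - 1) (by omega), Nat.sub_add_cancel h3, S.stop, h2]
    exact Sym2.mem_mk_right _ _

lemma t_ne (S : Subdiv G) {k k' : Fin 15} (v : Fin 10) (h : k ≠ k') : S.t k v ≠ S.t k' v := by
  obtain ⟨i, hi, h1⟩ := S.t_idx k v
  obtain ⟨j, hj, h2⟩ := S.t_idx k' v
  rw [h1, h2]
  intro hh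
  exact h (S.q_inj k k' i j hi hj hh).1

/-- the edges of the subdivision at a branch vertex -/
lemma at_branch (S : Subdiv G) (v : Fin 10) {e : E} (he : ∃ k, e ∈ S.P k)
    (hv : S.b v ∈ G.ends e) : ∃ k, (pa k = v ∨ pb k = v) ∧ e = S.t k v := by
  obtain ⟨k, hk⟩ := he
  rw [S.mem_P] at hk
  obtain ⟨i, hi, rfl⟩ := hk
  -- an index for the branch vertex
  obtain ⟨k0, j0, hj0, hb, hjj⟩ : ∃ k0 j0, j0 ≤ S.n k0 ∧ S.b v = S.p k0 j0 ∧
      (j0 = 0 ∨ j0 = S.n k0) := by
    rcases (star_inc v).1 with h | h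
    · exact ⟨_, 0, Nat.zero_le _, by rw [S.start, h], Or.inl rfl⟩
    · exact ⟨_, _, le_rfl, by rw [S.stop, h], Or.inr rfl⟩
  have hend : ∀ i', i' ≤ S.n k → S.b v = S.p k i' → i' = 0 ∨ i' = S.n k := by
    intro i' hi' h
    rcases S.inj k0 j0 k i' hj0 hi' (by rw [← hb, h]) with ⟨h3, h4⟩ | ⟨_, h4⟩
    · subst h3; subst h4; exact hjj
    · exact h4
  rw [S.ends k i hi, Sym2.mem_iff] at hv
  rcases hv with hv | hv
  · have hi0 : i = 0 := by
      rcases hend i hi.le hv with h | h
      · exact h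
      · omega
    subst hi0
    rw [S.start] at hv
    have := S.b_inj hv
    exact ⟨k, Or.inl this.symm, by unfold t; rw [if_pos this.symm]⟩
  · have hin : i + 1 = S.n k := by
      rcases hend (i + 1) hi hv with h | h
      · omega
      · exact h
    rw [hin, S.stop] at hv
    have h2 := S.b_inj hv
    refine ⟨k, Or.inr h2.symm, ?_⟩
    unfold t
    have h3 : pa k ≠ v := by
      rw [h2]; exact (pa_lt k).ne
    rw [if_neg h3]
    congr 1
    omega

open Pool.Agent.Y825.GC in
lemma star_even (S : Subdiv G) {C : Finset E} (hC : ∀ e ∈ C, ∃ k, e ∈ S.P k)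
    (hev : G.IsEven C) (v : Fin 10) :
    Even ((if S.q (q1 v) 0 ∈ C then 1 else 0) + (if S.q (q2 v) 0 ∈ C then 1 else 0) +
      (if S.q (q3 v) 0 ∈ C then 1 else 0)) := by
  have h1 := hev (S.b v)
  rw [S.deg_eq hC] at h1
  have hset : C.filter (fun e => S.b v ∈ G.ends e) =
      ({S.t (q1 v) v, S.t (q2 v) v, S.t (q3 v) v} : Finset E).filter (fun e => e ∈ C) := by
    ext e
    rw [mem_filter, mem_filter, mem_insert, mem_insert, mem_singleton]
    constructor
    · rintro ⟨he, hv⟩
      refine ⟨?_, he⟩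
      obtain ⟨k, hk, rfl⟩ := S.at_branch v (hC e he) hv
      have : k = q1 v ∨ k = q2 v ∨ k = q3 v := by
        rcases hk with rfl | rfl
        · exact star_a k
        · exact star_b k
      rcases this with h | h | h
      · left; rw [← h]
      · right; left; rw [← h]
      · right; right; rw [← h]
    · rintro ⟨h3, h4⟩
      refine ⟨h4, ?_⟩
      obtain ⟨i1, i2, i3⟩ := star_inc v
      rcases h3 with rfl | rfl | rfl
      · exact S.t_mem_ends _ _ i1
      · exact S.t_mem_ends _ _ i2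
      · exact S.t_mem_ends _ _ i3
  have ht : ∀ k, (S.t k v ∈ C ↔ S.q k 0 ∈ C) := by
    intro k
    obtain ⟨i, hi, h2⟩ := S.t_idx k v
    rw [h2]
    exact S.all hC hev k i hi
  obtain ⟨n12, n13, n23⟩ := star_ne v
  rw [hset, Finset.card_filter, Finset.sum_insert, Finset.sum_insert, Finset.sum_singleton] at h1
  · simp only [ht] at h1
    rw [add_assoc]
    exact h1
  · rw [mem_singleton]; exact S.t_ne v n23
  · rw [mem_insert, mem_singleton, not_or]; exact ⟨S.t_ne v n12, S.t_ne v n13⟩

end Subdiv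

lemma sum_get {α : Type} (p : α → Prop) [DecidablePred p] (L : List α) :
    ∑ j : Fin L.length, (if p (L.get j) then 1 else 0) = L.countP (fun a => decide (p a)) := by
  induction L with
  | nil => simp
  | cons a L ih =>
    rw [List.countP_cons, ← ih]
    have h : (∑ j : Fin (a :: L).length, if p ((a :: L).get j) then 1 else 0) =
        (if p a then 1 else 0) + ∑ j : Fin L.length, if p (L.get j) then 1 else 0 :=
      Fin.sum_univ_succ _
    rw [h, add_comm]
    simp

theorem no_cover (S : Subdiv G) (c : ℕ) (hc : Odd c) : ¬ HasCover G (S.weight c) := by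
  rintro ⟨F, hF, hcov⟩
  induction F using Quotient.inductionOn with
  | _ L =>
  have hF' : ∀ C ∈ L, G.IsCircuit C := fun C hC => hF C (by simpa using hC)
  have hcov' : ∀ e, L.countP (fun C => decide (e ∈ C)) = S.weight c e := by
    intro e
    have := hcov e
    simpa using this
  have hsub : ∀ C ∈ L, ∀ e ∈ C, ∃ k, e ∈ S.P k := by
    intro C hC e he
    by_contra hcon
    push Not at hcon
    have h0 := hcov' e
    rw [S.weight_of_not_mem c hcon, List.countP_eq_zero] at h0
    exact h0 C hC (by simpa using he)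
  have hev : ∀ C ∈ L, G.IsEven C := fun C hC => (hF' C hC).isEven
  have hsum : ∀ k, ∑ j : Fin L.length, (if S.q k 0 ∈ L.get j then 1 else 0) = c * wt k := by
    intro k
    have h1 := hcov' (S.q k 0)
    rw [S.weight_of_mem c (k := k) ((S.mem_P k _).2 ⟨0, S.pos k, rfl⟩)] at h1
    rw [← h1]
    exact sum_get (fun C => S.q k 0 ∈ C) L
  refine Pool.Agent.Y825.GC.no_odd
    (fun (j : Fin L.length) (k : Fin 15) => if S.q k 0 ∈ L.get j then 1 else 0) ?_ ?_ c hc
    (by simpa [wt] using hsum 0) (by simpa [wt, mul_comm] using hsum 1)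
    (by simpa [wt] using hsum 2) (by simpa [wt] using hsum 3)
    (by simpa [wt, mul_comm] using hsum 4) (by simpa [wt] using hsum 5)
    (by simpa [wt] using hsum 6) (by simpa [wt] using hsum 7)
    (by simpa [wt, mul_comm] using hsum 8) (by simpa [wt, mul_comm] using hsum 9)
    (by simpa [wt] using hsum 10) (by simpa [wt] using hsum 11)
    (by simpa [wt] using hsum 12) (by simpa [wt] using hsum 13)
    (by simpa [wt, mul_comm] using hsum 14)
  · intro j k
    split_ifs <;> norm_num
  · intro j v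
    exact S.star_even (hsub _ (List.get_mem L j)) (hev _ (List.get_mem L j)) v

end Pool.Agent.Y392.PK
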