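import Pool.Agent.Y392.PK.NoCover

/-! The Petersen graph and its subdivisions. -/

set_option autoImplicit false

namespace Pool.Agent.Y392.PK

open Finset
open Pool.Agent.H126R2.CDC (MGraph)

/-- the Petersen graph: vertices `Fin 10`, the edge `k` joins `pa k` and `pb k` -/
def petG : MGraph (Fin 10) (Fin 15) := ⟨fun k => s(pa k, pb k)⟩

/-- the Petersen graph as a subdivision of itself -/
def petS : Subdiv petG where
  b := id
  n := fun _ => 1
  p := fun k i => if i = 0 then pa k else pb k
  q := fun k _ => k
  b_inj := fun _ _ h => h
  pos := fun _ => Nat.one_pos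
  start := fun _ => by simp
  stop := fun _ => by simp
  ends := fun k i hi => by
    have : i = 0 := by omega
    subst this
    simp [petG]
  inj := fun k i k' j hi hj _ => by
    right
    constructor <;> omega

/-- `P_k`: every admissible eulerian weight all of whose values are multiples of `k` has a faithful
circuit cover -/
def PropertyP {V E : Type} [Fintype V] [DecidableEq V] [Fintype E] [DecidableEq E]
    (G : MGraph V E) (k : ℕ) : Prop :=
  ∀ w : E → ℕ, (∀ e, k ∣ w e) → Eulerian G w → Admissible G w → HasCover G w

theorem not_P {V E : Type} [Fintype V] [DecidableEq V] [Fintype E] [DecidableEq E]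
    (G : MGraph V E) (S : Subdiv G) (k : ℕ) (hk : Odd k) : ¬ PropertyP G k :=
  fun h => no_cover S k hk (h _ (S.dvd_weight k) (eulerian G S k) (admissible G S k))

theorem P_mul {V E : Type} [Fintype V] [DecidableEq V] [Fintype E] [DecidableEq E]
    (G : MGraph V E) (k m : ℕ) (h : PropertyP G k) : PropertyP G (k * m) :=
  fun w hw => h w (fun e => (Dvd.intro m rfl).trans (hw e))

lemma pet_cut : ∀ f : Fin 10 → Bool, (∀ i, f i = f 0) ∨
    3 ≤ (univ.filter (fun k : Fin 15 => f (pa k) ≠ f (pb k))).card := by
  decide +kernel

/-- every edge cut of the Petersen graph has at least three edges -/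
theorem pet_three (X : Finset (Fin 10)) (h1 : X.Nonempty) (h2 : X ≠ univ) :
    3 ≤ (cut petG X).card := by
  rcases pet_cut (fun i => decide (i ∈ X)) with h | h
  · exfalso
    obtain ⟨a, ha⟩ := h1
    apply h2
    ext i
    have e1 := h i
    have e2 := h a
    simp only [ha, decide_true] at e2
    rw [← e2] at e1
    simpa using e1
  · refine le_trans h (Finset.card_le_card ?_)
    intro k hk
    rw [mem_filter] at hk
    rw [mem_cut petG X k (pa k) (pb k) rfl]
    intro h3
    exact hk.2 (by simpa using h3)

end Pool.Agent.Y392.PK
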