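import Pool.Agent.H126R2.CDC.Decomp
import Pool.Agent.Y825.GC.Petersen

/-! Subdivisions of the Petersen graph and faithful circuit covers. -/

set_option autoImplicit false

namespace Pool.Agent.Y392.PK

open Finset
open Pool.Agent.H126R2.CDC (MGraph)

/-- first end of the edge number `k` of the Petersen graph on `Fin 10` -/
def pa (k : Fin 15) : Fin 10 :=
  (![0, 0, 0, 1, 1, 2, 2, 3, 3, 4, 4, 5, 5, 6, 7] : Fin 15 → Fin 10) k

/-- second end of the edge number `k` of the Petersen graph on `Fin 10` -/
def pb (k : Fin 15) : Fin 10 :=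
  (![1, 2, 3, 4, 5, 6, 7, 8, 9, 6, 8, 7, 9, 9, 8] : Fin 15 → Fin 10) k

/-- the weight: `2` on a perfect matching, `1` on the two pentagons that remain -/
def wt (k : Fin 15) : ℕ := (![1, 2, 1, 1, 2, 1, 1, 1, 2, 2, 1, 1, 1, 1, 2] : Fin 15 → ℕ) k

lemma pa_lt : ∀ k, pa k < pb k := by decide +kernel

lemma pair_inj : ∀ k k' : Fin 15, pa k = pa k' → pb k = pb k' → k = k' := by decide +kernel

lemma wt_pos : ∀ k, 0 < wt k := by decide +kernel

/-- A subdivision of the Petersen graph in `G`: the branch vertices `b 0, ..., b 9` and, for each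
edge `k` of the Petersen graph, a path with `n k ≥ 1` edges `q k 0, q k 1, ...` and the vertices
`p k 0, ..., p k (n k)` from `b (pa k)` to `b (pb k)`. Two of the listed vertices of the paths
coincide only if both are ends of their paths. -/
structure Subdiv {V E : Type} (G : MGraph V E) where
  b : Fin 10 → V
  n : Fin 15 → ℕ
  p : Fin 15 → ℕ → V
  q : Fin 15 → ℕ → E
  b_inj : Function.Injective b
  pos : ∀ k, 0 < n k
  start : ∀ k, p k 0 = b (pa k)
  stop : ∀ k, p k (n k) = b (pb k)
  ends : ∀ k i, i < n k → G.ends (q k i) = s(p k i, p k (i + 1))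
  inj : ∀ k i k' j, i ≤ n k → j ≤ n k' → p k i = p k' j →
    (k = k' ∧ i = j) ∨ ((i = 0 ∨ i = n k) ∧ (j = 0 ∨ j = n k'))

namespace Subdiv

variable {V E : Type} [Fintype V] [DecidableEq V] [Fintype E] [DecidableEq E] {G : MGraph V E}

lemma p_ne (S : Subdiv G) (k : Fin 15) : S.p k 0 ≠ S.p k (S.n k) := by
  rw [S.start, S.stop]
  intro h
  have := S.b_inj h
  have h2 := pa_lt k
  rw [this] at h2
  exact lt_irrefl _ h2

lemma p_succ_ne (S : Subdiv G) (k : Fin 15) (i : ℕ) (hi : i < S.n k) :
    S.p k i ≠ S.p k (i + 1) := by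
  intro h
  rcases S.inj k i k (i + 1) hi.le hi h with h1 | ⟨h1, h2⟩
  · omega
  · have e0 : i = 0 := by omega
    have e1 : i + 1 = S.n k := by omega
    rw [e1, e0] at h
    exact S.p_ne k h

lemma q_inj (S : Subdiv G) (k k' : Fin 15) (i j : ℕ) (hi : i < S.n k) (hj : j < S.n k')
    (h : S.q k i = S.q k' j) : k = k' ∧ i = j := by
  have he := S.ends k i hi
  rw [h, S.ends k' j hj, Sym2.eq_iff] at he
  rcases he with ⟨h1, h2⟩ | ⟨h1, h2⟩
  · rcases S.inj k' j k i hj.le hi.le h1 with ⟨h3, h4⟩ | ⟨h3, h4⟩
    · exact ⟨h3.symm, h4.symm⟩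
    · have ej : j = 0 := by omega
      have ei : i = 0 := by omega
      subst ej ei
      rcases S.inj k' (0 + 1) k (0 + 1) hj hi h2 with ⟨h5, h6⟩ | ⟨h5, h6⟩
      · exact ⟨h5.symm, rfl⟩
      · have n1 : S.n k' = 1 := by omega
        have n2 : S.n k = 1 := by omega
        rw [S.start, S.start] at h1
        have h2' : S.p k' (S.n k') = S.p k (S.n k) := by rw [n1, n2]; exact h2
        rw [S.stop, S.stop] at h2'
        exact ⟨(pair_inj k' k (S.b_inj h1) (S.b_inj h2')).symm, rfl⟩
  · exfalso
    -- p k' j = p k (i+1), p k' (j+1) = p k i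
    rcases S.inj k' j k (i + 1) hj.le hi h1 with ⟨h3, h4⟩ | ⟨h3, h4⟩
    · rcases S.inj k' (j + 1) k i hj hi.le h2 with ⟨h5, h6⟩ | ⟨h5, h6⟩
      · omega
      · have e1 : i = 0 := by omega
        have e2 : j + 1 = S.n k' := by omega
        subst h3
        rw [e2, e1] at h2
        exact S.p_ne k' h2.symm
    · have e1 : j = 0 := by omega
      have e2 : i + 1 = S.n k := by omega
      rcases S.inj k' (j + 1) k i hj hi.le h2 with ⟨h5, h6⟩ | ⟨h5, h6⟩
      · subst h5
        rw [e1, e2] at h1
        exact S.p_ne k' h1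
      · have e3 : i = 0 := by omega
        have e4 : j + 1 = S.n k' := by omega
        rw [e1, e2, S.start, S.stop] at h1
        rw [e4, e3, S.start, S.stop] at h2
        have a1 := S.b_inj h1
        have a2 := S.b_inj h2
        have b1 := pa_lt k
        have b2 := pa_lt k'
        rw [a1, a2] at b2
        exact absurd b1 (lt_asymm b2)

/-- the edges of the path number `k` -/
def P (S : Subdiv G) (k : Fin 15) : Finset E := (range (S.n k)).image (S.q k)

lemma mem_P (S : Subdiv G) (k : Fin 15) (e : E) : e ∈ S.P k ↔ ∃ i < S.n k, S.q k i = e := by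
  simp [P]

lemma P_disj (S : Subdiv G) {k k' : Fin 15} {e : E} (h : e ∈ S.P k) (h' : e ∈ S.P k') :
    k = k' := by
  rw [mem_P] at h h'
  obtain ⟨i, hi, rfl⟩ := h
  obtain ⟨j, hj, hh⟩ := h'
  exact (S.q_inj k k' i j hi hj hh.symm).1

/-- `c` times the weight of the Petersen graph, on the edges of the paths; `0` elsewhere -/
def weight (S : Subdiv G) (c : ℕ) (e : E) : ℕ := ∑ k, if e ∈ S.P k then c * wt k else 0

lemma weight_of_mem (S : Subdiv G) (c : ℕ) {k : Fin 15} {e : E} (h : e ∈ S.P k) :
    S.weight c e = c * wt k := by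
  unfold weight
  rw [Finset.sum_eq_single k]
  · rw [if_pos h]
  · intro k' _ hk
    rw [if_neg]
    intro h'
    exact hk (S.P_disj h' h)
  · intro h'
    exact absurd (mem_univ k) h'

lemma weight_of_not_mem (S : Subdiv G) (c : ℕ) {e : E} (h : ∀ k, e ∉ S.P k) :
    S.weight c e = 0 := by
  unfold weight
  apply Finset.sum_eq_zero
  intro k _
  rw [if_neg (h k)]

lemma dvd_weight (S : Subdiv G) (c : ℕ) (e : E) : c ∣ S.weight c e := by
  unfold weight
  apply Finset.dvd_sum
  intro k _
  split_ifs
  · exact Dvd.intro _ rfl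
  · exact dvd_zero c

end Subdiv

/-- the edges with one end in `X` and one end outside `X` -/
def cut {V E : Type} [Fintype V] [DecidableEq V] [Fintype E] (G : MGraph V E) (X : Finset V) :
    Finset E :=
  univ.filter (fun f => (∃ v ∈ G.ends f, v ∈ X) ∧ ∃ v ∈ G.ends f, v ∉ X)

section
variable {V E : Type} [Fintype V] [DecidableEq V] [Fintype E] [DecidableEq E]

lemma mem_cut (G : MGraph V E) (X : Finset V) (e : E) (x y : V) (h : G.ends e = s(x, y)) :
    e ∈ cut G X ↔ ¬ (x ∈ X ↔ y ∈ X) := by
  unfold cut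
  rw [mem_filter, h]
  simp only [mem_univ, true_and, Sym2.mem_iff]
  constructor
  · rintro ⟨⟨v, hv, hvX⟩, ⟨u, hu, huX⟩⟩ hh
    rcases hv with rfl | rfl <;> rcases hu with rfl | rfl <;> tauto
  · intro hh
    by_cases hx : x ∈ X
    · exact ⟨⟨x, Or.inl rfl, hx⟩, ⟨y, Or.inr rfl, fun hy => hh ⟨fun _ => hy, fun _ => hx⟩⟩⟩
    · refine ⟨⟨y, Or.inr rfl, ?_⟩, ⟨x, Or.inl rfl, hx⟩⟩
      by_contra hy
      exact hh ⟨fun a => absurd a hx, fun a => absurd a hy⟩

lemma par (f : ℕ → Bool) (n : ℕ) :
    ((range n).filter (fun i => f i ≠ f (i + 1))).card % 2 = if f 0 ≠ f n then 1 else 0 := by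
  induction n with
  | zero => simp
  | succ n ih =>
    rw [range_add_one, filter_insert]
    split_ifs with h1 h2 h2
    · rw [card_insert_of_notMem (by simp)]
      split_ifs at ih with h3
      · exfalso
        revert h1 h2 h3
        cases f n <;> cases f (n + 1) <;> cases f 0 <;> simp
      · omega
    · rw [card_insert_of_notMem (by simp)]
      split_ifs at ih with h3
      · omega
      · exfalso
        revert h1 h2 h3
        cases f n <;> cases f (n + 1) <;> cases f 0 <;> simp
    · split_ifs at ih with h3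
      · exact ih
      · exfalso
        revert h1 h2 h3
        cases f n <;> cases f (n + 1) <;> cases f 0 <;> simp
    · split_ifs at ih with h3
      · exfalso
        revert h1 h2 h3
        cases f n <;> cases f (n + 1) <;> cases f 0 <;> simp
      · exact ih

/-- number of edges of the path `k` in the cut -/
lemma card_cut (G : MGraph V E) (S : Subdiv G) (X : Finset V) (k : Fin 15) :
    ((cut G X).filter (fun e => e ∈ S.P k)).card =
      ((range (S.n k)).filter (fun i => decide (S.p k i ∈ X) ≠ decide (S.p k (i + 1) ∈ X))).card := by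
  symm
  apply Finset.card_bij (fun i _ => S.q k i)
  · intro i hi
    rw [mem_filter, mem_range] at hi
    rw [mem_filter, mem_cut G X _ _ _ (S.ends k i hi.1), S.mem_P]
    refine ⟨?_, i, hi.1, rfl⟩
    intro h
    exact hi.2 (by simpa using h)
  · intro i hi j hj h
    rw [mem_filter, mem_range] at hi hj
    exact (S.q_inj k k i j hi.1 hj.1 h).2
  · intro e he
    rw [mem_filter, S.mem_P] at he
    obtain ⟨h1, i, hi, rfl⟩ := he
    refine ⟨i, ?_, rfl⟩
    rw [mem_cut G X _ _ _ (S.ends k i hi)] at h1
    rw [mem_filter, mem_range]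
    refine ⟨hi, ?_⟩
    intro h
    exact h1 (by simpa using h)

lemma card_mod (G : MGraph V E) (S : Subdiv G) (X : Finset V) (k : Fin 15) :
    ((cut G X).filter (fun e => e ∈ S.P k)).card % 2 =
      if decide (S.b (pa k) ∈ X) ≠ decide (S.b (pb k) ∈ X) then 1 else 0 := by
  rw [card_cut, par (fun i => decide (S.p k i ∈ X)) (S.n k), S.start, S.stop]

lemma sum_cut (G : MGraph V E) (S : Subdiv G) (X : Finset V) (c : ℕ) :
    ∑ e ∈ cut G X, S.weight c e =
      ∑ k, c * wt k * ((cut G X).filter (fun e => e ∈ S.P k)).card := by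
  unfold Subdiv.weight
  rw [Finset.sum_comm]
  apply Finset.sum_congr rfl
  intro k _
  rw [← Finset.sum_filter, Finset.sum_const, smul_eq_mul, mul_comm]

lemma cut_even : ∀ f : Fin 10 → Bool,
    (∑ k, wt k * (if f (pa k) ≠ f (pb k) then 1 else 0)) % 2 = 0 := by
  decide +kernel

lemma cut_adm : ∀ f : Fin 10 → Bool, ∀ k : Fin 15, f (pa k) ≠ f (pb k) →
    2 * wt k ≤ ∑ k, wt k * (if f (pa k) ≠ f (pb k) then 1 else 0) := by
  decide +kernel

/-- the total weight of every cut is even -/
def Eulerian (G : MGraph V E) (w : E → ℕ) : Prop := ∀ X : Finset V, Even (∑ e ∈ cut G X, w e)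

/-- in every cut every edge has at most the total weight of the other edges -/
def Admissible (G : MGraph V E) (w : E → ℕ) : Prop :=
  ∀ X : Finset V, ∀ e ∈ cut G X, w e ≤ ∑ f ∈ (cut G X).erase e, w f

theorem eulerian (G : MGraph V E) (S : Subdiv G) (c : ℕ) : Eulerian G (S.weight c) := by
  intro X
  rw [sum_cut, Nat.even_iff]
  have h := cut_even (fun i => decide (S.b i ∈ X))
  have h1 : (∑ k, c * wt k * ((cut G X).filter (fun e => e ∈ S.P k)).card) % 2 =
      (c * ∑ k, wt k * (if decide (S.b (pa k) ∈ X) ≠ decide (S.b (pb k) ∈ X) then 1 else 0)) % 2 := by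
    rw [Finset.mul_sum]
    have hk : ∀ k ∈ (univ : Finset (Fin 15)),
        (c * wt k * ((cut G X).filter (fun e => e ∈ S.P k)).card) ≡
        (c * (wt k * (if decide (S.b (pa k) ∈ X) ≠ decide (S.b (pb k) ∈ X) then 1 else 0)))
          [MOD 2] := by
      intro k _
      rw [← card_mod G S X k, ← mul_assoc]
      exact Nat.ModEq.mul_left _ (Nat.mod_modEq _ _).symm
    exact Nat.ModEq.sum hk
  rw [h1, Nat.mul_mod, h]
  simp

theorem admissible (G : MGraph V E) (S : Subdiv G) (c : ℕ) : Admissible G (S.weight c) := by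
  intro X e he
  by_cases hk : ∃ k, e ∈ S.P k
  · obtain ⟨k, hk⟩ := hk
    have hs : S.weight c e + ∑ f ∈ (cut G X).erase e, S.weight c f =
        ∑ e ∈ cut G X, S.weight c e := Finset.add_sum_erase _ _ he
    have hw := S.weight_of_mem c hk
    have key : 2 * (c * wt k) ≤ ∑ e ∈ cut G X, S.weight c e := by
      rw [sum_cut]
      have hpos : 0 < ((cut G X).filter (fun e => e ∈ S.P k)).card :=
        Finset.card_pos.2 ⟨e, mem_filter.2 ⟨he, hk⟩⟩
      by_cases h2 : 2 ≤ ((cut G X).filter (fun e => e ∈ S.P k)).card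
      · calc 2 * (c * wt k) ≤ c * wt k * ((cut G X).filter (fun e => e ∈ S.P k)).card := by
              rw [mul_comm]; exact Nat.mul_le_mul_left _ h2
          _ ≤ _ := Finset.single_le_sum
            (f := fun k => c * wt k * ((cut G X).filter (fun e => e ∈ S.P k)).card)
            (fun _ _ => Nat.zero_le _) (mem_univ k)
      · have h1 : ((cut G X).filter (fun e => e ∈ S.P k)).card = 1 := by omega
        have hm := card_mod G S X k
        rw [h1] at hm
        have hsep : decide (S.b (pa k) ∈ X) ≠ decide (S.b (pb k) ∈ X) := by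
          intro hcon
          rw [if_neg (by rw [hcon]; simp)] at hm
          norm_num at hm
        have h3 := cut_adm (fun i => decide (S.b i ∈ X)) k hsep
        calc 2 * (c * wt k) = c * (2 * wt k) := by ring
          _ ≤ c * ∑ k, wt k *
              (if decide (S.b (pa k) ∈ X) ≠ decide (S.b (pb k) ∈ X) then 1 else 0) :=
            Nat.mul_le_mul_left _ h3
          _ = ∑ k, c * wt k *
              (if decide (S.b (pa k) ∈ X) ≠ decide (S.b (pb k) ∈ X) then 1 else 0) := by
            rw [Finset.mul_sum]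
            apply Finset.sum_congr rfl
            intro k _
            ring
          _ ≤ _ := by
            apply Finset.sum_le_sum
            intro k _
            apply Nat.mul_le_mul_left
            rw [← card_mod G S X k]
            exact Nat.mod_le _ _
    omega
  · rw [S.weight_of_not_mem c (fun k h => hk ⟨k, h⟩)]
    exact Nat.zero_le _

end

end Pool.Agent.Y392.PK
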